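import Pool.Agent.EXSG.SIG2

/-!
# MP_46b841_nt: Stark's conjecture is equivalent to its case of one sparse sequence of cyclic
extensions

Let `F, g : ℕ → ℕ` be functions with `g → ∞`.  There is a sequence of cyclic extensions of number
fields `L_j / K_j` with `[K_j : ℚ] ≥ F(j)`, each of which is unramified over a totally complex field
`K_j` or has prime power degree and a totally complex field `L_j`, such that

* for every finite set `T` of prime numbers, every number field `E` and every `ε > 0`, for all but
  finitely many `j`, `K_j` has a Galois extension with quasi-elementary group which contains `E`,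
  and either `K_j` is totally complex, `L_j / K_j` is unramified and the primes above `T` split
  completely in `L_j / K_j`, or `[L_j : K_j] = p^n`, `E K_j / K_j` is a `p`-extension, `L_j` is
  totally complex and `K_j` has at most `ε [K_j : ℚ]` real places;
* for every set `J` of natural numbers which contains the interval `[a, a + g(a)]` for infinitely
  many `a`, and for every automorphism `σ` of `ℂ`, Stark's conjecture for `σ` and all characters of
  all finite Galois extensions of number fields is equivalent to its special case for `σ` where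
  `S = S_∞` and `ψ` is a faithful linear character of `Gal(L_j / K_j)`, `j ∈ J`, or a totally odd
  faithful linear character over a totally real field.
-/

open NumberField Filter

theorem Pool.Agent.Results.MP_46b841_nt.SparseSequenceExact.result :
    ∀ (F g : ℕ → ℕ), Tendsto g atTop atTop →
      ∃ (K L : ℕ → Type) (_ : ∀ j, Field (K j)) (_ : ∀ j, NumberField (K j))
        (_ : ∀ j, Field (L j)) (_ : ∀ j, NumberField (L j)) (_ : ∀ j, Algebra (K j) (L j))
        (_ : ∀ j, IsGalois (K j) (L j)),
        (∀ j, F j ≤ Module.finrank ℚ (K j) ∧
          (StarkW.UnrPair ∅ (K j) (L j) ∨ StarkW.PowPair ℚ 1 (K j) (L j))) ∧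
        (∀ (T : Finset ℕ) (E : Type) [Field E] [NumberField E] (ε : ℝ), 0 < ε →
          ∀ᶠ j in atTop, StarkW.QExt E (K j) ∧
            (StarkW.UnrPair T (K j) (L j) ∨ StarkW.PowPair E ε (K j) (L j))) ∧
        ∀ J : Set ℕ, (∃ᶠ a in atTop, ∀ j, a ≤ j → j ≤ a + g a → j ∈ J) → ∀ σ : ℂ ≃+* ℂ,
          (StarkW.ConjAt σ ↔
            (∀ j ∈ J, StarkW.FaithAt σ (K j) (L j)) ∧ StarkW.OddAt σ) := by
  intro F g hg
  obtain ⟨Y, h1, h2, h3⟩ := StarkC.EXSG.main F g hg
  exact ⟨fun j => (Y j).K, fun j => (Y j).L, fun j => (Y j).fK, fun j => (Y j).nK,
    fun j => (Y j).fL, fun j => (Y j).nL, fun j => (Y j).alg, fun j => (Y j).gal, h1, h2, h3⟩
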