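import Pool.Agent.StarkI.PDefsI
import Pool.Agent.StarkI.PBridgeI

/-!
# MP_46b841_nt: reduction of Stark's conjecture to unramified characters and characters of prime
power order

Let `T` be a finite set of prime numbers, `E` a Galois number field and `ε > 0`.  Stark's
conjecture for all characters of all finite Galois extensions of number fields is equivalent to
its special case where `S = S_∞` and `ψ` is a faithful linear character of `Gal(L/K)` such that

* `K` is totally complex, `L/K` is unramified and the primes above `T` split completely in `L/K`;
* or `K` is totally complex, `ψ` has prime power order `p^n` and `EK/K` is a `p`-extension;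
* or `K` has at most `ε [K : ℚ]` real places, `ψ` has 2-power order and is odd at all real places
  of `K`, and `EK/K` is a 2-extension;
* or `K` is totally real and `ψ` is totally odd.
-/

theorem Pool.Agent.Results.MP_46b841_nt.UnramifiedOrPrimePower.result :
    ∀ (T : Finset ℕ) (E : Type) [Field E] [NumberField E] [IsGalois ℚ E] (ε : ℝ), 0 < ε →
      (StarkP.StarkConjecture ↔ StarkP.StarkFour T E ε) := by
  intro T E _ _ _ ε hε
  exact StarkB.starkFour_main T E ε hε
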